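import Pool.Agent.Helper59.AN.Goals
import Pool.Agent.Helper46.NU.DfnT

/-! # MP_4137ca_lc, packet SYS: sections and sigma-algebras are definable -/

noncomputable section

namespace AN.PkSYS

open Pool.Agent.Helper97.Ku NU

theorem sec (i j k l b : ℕ) (hi : i < b) (hj : j < b) (hk : k < b) (hl : l < b) :
    Dfn (fun _ E w => IsSec E (w i) (w j) (w k) (w l))
      (fun _ _ w => secV (w i) (w j) (w k) (w l)) := by
  have i0 : i ≠ b := by omega
  have j0 : j ≠ b := by omega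
  have k0 : k ≠ b := by omega
  have l0 : l ≠ b := by omega
  -- x = b, fresh: b + 1, b + 2, b + 3
  exact Dfn.congr (Dfn.all b (Dfn.iff (Dfn.mem b l)
    (Dfn.and (Dfn.sub b i (b + 1) (by omega) (by omega))
      (Dfn.ap j k b (b + 1) (b + 2) (b + 3) (by omega) (by omega) (by omega) (by omega)
        (by omega) (by omega) (by omega) (by omega) (by omega) (by omega)))))
    (fun N E w => by simp [IsSec, Function.update_apply, i0, j0, k0, l0])
    (fun L _ w => by simp [secV, Function.update_apply, i0, j0, k0, l0])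

theorem sig_iff {N : Type 1} (E : N → N → Prop) (o S : N) :
    IsSig E o S ↔ ((∀ Y, E Y S → IsReals E o Y) ∧ ((∃ Y, E Y S) ∧
      ((∀ Y, E Y S → ∃ Z, E Z S ∧ ∀ x, E x Z ↔ (Sub E x o ∧ ¬ E x Y)) ∧
      (∀ R, (∀ n, E n o → ∃ Y, E Y S ∧ IsSec E o R n Y) →
        ∃ Z, E Z S ∧ ∀ x, E x Z ↔ (Sub E x o ∧ ∃ n, E n o ∧ Ap E R n x))))) :=
  ⟨fun h => ⟨h.sub, h.ne, h.cpl, h.un⟩, fun h => ⟨h.1, h.2.1, h.2.2.1, h.2.2.2⟩⟩

theorem sig (i j b : ℕ) (hi : i < b) (hj : j < b) :
    Dfn (fun _ E w => IsSig E (w i) (w j)) (fun _ _ w => sigV (w i) (w j)) := by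
  have i0 : i ≠ b := by omega
  have i1 : i ≠ b + 1 := by omega
  have i2 : i ≠ b + 2 := by omega
  have i3 : i ≠ b + 3 := by omega
  have j0 : j ≠ b := by omega
  have j1 : j ≠ b + 1 := by omega
  have j2 : j ≠ b + 2 := by omega
  have j3 : j ≠ b + 3 := by omega
  -- Y = b, Z = b + 1, x = b + 2, n = b + 3, R = b + 4
  have i4 : i ≠ b + 4 := by omega
  have j4 : j ≠ b + 4 := by omega
  have c1 : Dfn (fun _ E w => ∀ Y, E Y (w j) → IsReals E (w i) Y)
      (fun L _ w => ⨅ Y : BSet L, (Y.mem (w j) ⇨ realsV (w i) Y)) :=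
    Dfn.congr (Dfn.all b (Dfn.imp (Dfn.mem b j) (Dfn.all (b + 2)
      (Dfn.imp (Dfn.mem (b + 2) b) (Dfn.sub (b + 2) i (b + 5) (by omega) (by omega))))))
      (fun N E w => by simp [IsReals, Function.update_apply, i0, i2, j0])
      (fun L _ w => by simp [realsV, Function.update_apply, i0, i2, j0])
  have c2 : Dfn (fun _ E w => ∃ Y, E Y (w j)) (fun L _ w => ⨆ Y : BSet L, Y.mem (w j)) :=
    Dfn.congr (Dfn.ex b (Dfn.mem b j))
      (fun N E w => by simp [Function.update_apply, j0])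
      (fun L _ w => by simp [Function.update_apply, j0])
  have c3 : Dfn (fun _ E w => ∀ Y, E Y (w j) → ∃ Z, E Z (w j) ∧
        ∀ x, E x Z ↔ (Sub E x (w i) ∧ ¬ E x Y))
      (fun L _ w => cplV (w i) (w j)) :=
    Dfn.congr (Dfn.all b (Dfn.imp (Dfn.mem b j) (Dfn.ex (b + 1) (Dfn.and (Dfn.mem (b + 1) j)
      (Dfn.all (b + 2) (Dfn.iff (Dfn.mem (b + 2) (b + 1))
        (Dfn.and (Dfn.sub (b + 2) i (b + 5) (by omega) (by omega))
          (Dfn.neg (Dfn.mem (b + 2) b)))))))))
      (fun N E w => by simp [Function.update_apply, i0, i1, i2, j0, j1, j2])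
      (fun L _ w => by simp [cplV, Function.update_apply, i0, i1, i2, j0, j1, j2])
  have c4 : Dfn (fun _ E w => ∀ R, (∀ n, E n (w i) → ∃ Y, E Y (w j) ∧ IsSec E (w i) R n Y) →
        ∃ Z, E Z (w j) ∧ ∀ x, E x Z ↔ (Sub E x (w i) ∧ ∃ n, E n (w i) ∧ Ap E R n x))
      (fun L _ w => unV (w i) (w j)) :=
    Dfn.congr (Dfn.all (b + 4) (Dfn.imp
      (Dfn.all (b + 3) (Dfn.imp (Dfn.mem (b + 3) i) (Dfn.ex b (Dfn.and (Dfn.mem b j)
        (sec i (b + 4) (b + 3) b (b + 5) (by omega) (by omega) (by omega) (by omega))))))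
      (Dfn.ex (b + 1) (Dfn.and (Dfn.mem (b + 1) j) (Dfn.all (b + 2)
        (Dfn.iff (Dfn.mem (b + 2) (b + 1)) (Dfn.and
          (Dfn.sub (b + 2) i (b + 5) (by omega) (by omega))
          (Dfn.ex (b + 3) (Dfn.and (Dfn.mem (b + 3) i)
            (Dfn.ap (b + 4) (b + 3) (b + 2) (b + 5) (b + 6) (b + 7) (by omega) (by omega)
              (by omega) (by omega) (by omega) (by omega) (by omega) (by omega) (by omega)
              (by omega)))))))))))
      (fun N E w => by simp [Function.update_apply, i0, i1, i2, i3, i4, j0, j1, j2, j3, j4])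
      (fun L _ w => by
        simp [unV, Function.update_apply, i0, i1, i2, i3, i4, j0, j1, j2, j3, j4])
  exact Dfn.congr (Dfn.and c1 (Dfn.and c2 (Dfn.and c3 c4)))
    (fun N E w => (sig_iff E _ _).symm) (fun L _ w => rfl)

theorem sys : G_SYS := by
  constructor
  · intro i j k l
    exact sec i j k l (i + j + k + l + 1) (by omega) (by omega) (by omega) (by omega)
  · intro i j
    exact sig i j (i + j + 1) (by omega) (by omega)

end AN.PkSYS
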